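import Pool.Agent.N482.RD.Topo
import Pool.Agent.Helper732.HN.I

set_option autoImplicit false

/-!
# A ladder system of finite sets with a strong guessing property, from diamond
-/

namespace Pool.Agent.N482.RD

open Set Topology Cardinal
open Pool.Agent.Helper732.HN (Om om_countable om_bound om_gt hni_infinite IsClub Diamond
  isClub_closure)

/-- guessing of arbitrary requirements on finite sets -/
def Cap (F : Om → ℕ → Finset Om) : Prop :=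
  ∀ R : Finset Om → ℕ → Prop, (∀ (γ : Om) (j : ℕ), ∃ S : Finset Om, (∀ β ∈ S, γ < β) ∧ R S j) →
    ∃ α : Om, ∀ j : ℕ, R (F α j) j

theorem fin_bound (S : Finset Om) (γ a : Om) (hγ : γ < a) (hS : ∀ β ∈ S, β < a) :
    ∃ γ' < a, γ ≤ γ' ∧ ∀ β ∈ S, β ≤ γ' := by
  classical
  refine ⟨(insert γ S).max' ⟨γ, Finset.mem_insert_self _ _⟩, ?_, ?_, ?_⟩
  · rw [Finset.max'_lt_iff]
    intro β hβ
    rcases Finset.mem_insert.1 hβ with rfl | h
    · exact hγ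
    · exact hS β h
  · exact Finset.le_max' _ _ (Finset.mem_insert_self _ _)
  · intro β hβ
    exact Finset.le_max' _ _ (Finset.mem_insert_of_mem hβ)

theorem one_ladder (a : Om) (G : Finset Om → ℕ → Prop) :
    ∃ (g : ℕ → Om) (F : ℕ → Finset Om), (∀ j, ∀ β ∈ F j, g j < β ∧ β ≤ g (j + 1) ∧ β < a) ∧
      Monotone g ∧ (∀ γ, γ < a → ∃ k, ∀ j, k ≤ j → (F j).Nonempty → γ < g j) ∧
      ((∃ b, b < a) → (∀ γ < a, ∃ γ' < a, γ < γ') →
        (∀ γ < a, ∀ j, ∃ S, (∀ β ∈ S, γ < β ∧ β < a) ∧ G S j) → ∀ j, G (F j) j) := by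
  classical
  by_cases hQ : (∃ b, b < a) ∧ (∀ γ < a, ∃ γ' < a, γ < γ') ∧
      (∀ γ < a, ∀ j, ∃ S, (∀ β ∈ S, γ < β ∧ β < a) ∧ G S j)
  swap
  · refine ⟨fun _ => a, fun _ => ∅, ?_, fun _ _ _ => le_rfl, ?_, ?_⟩
    · intro j β hβ
      simp at hβ
    · rintro γ - 
      exact ⟨0, fun j _ h => by simp at h⟩
    · intro h1 h2 h3
      exact absurd ⟨h1, h2, h3⟩ hQ
  obtain ⟨⟨b, hb⟩, hlim, hS⟩ := hQ
  obtain ⟨d, hd⟩ := (om_countable a).exists_eq_range ⟨b, hb⟩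
  have hda : ∀ k, d k < a := fun k => by
    have : d k ∈ Set.Iio a := by rw [hd]; exact ⟨k, rfl⟩
    exact this
  have hstep : ∀ (γ : {γ : Om // γ < a}) (j : ℕ), ∃ (S : Finset Om) (γ' : {γ : Om // γ < a}),
      γ.1 ≤ γ'.1 ∧ d (j + 1) ≤ γ'.1 ∧ (∀ β ∈ S, γ.1 < β ∧ β ≤ γ'.1) ∧ G S j := by
    intro γ j
    obtain ⟨S, hS1, hS2⟩ := hS γ.1 γ.2 j
    obtain ⟨γ', h1, h2, h3⟩ := fin_bound (insert (d (j + 1)) S) γ.1 a γ.2 (by
      intro β hβ
      rcases Finset.mem_insert.1 hβ with rfl | h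
      · exact hda _
      · exact (hS1 β h).2)
    exact ⟨S, ⟨γ', h1⟩, h2, h3 _ (Finset.mem_insert_self _ _),
      fun β hβ => ⟨(hS1 β hβ).1, h3 β (Finset.mem_insert_of_mem hβ)⟩, hS2⟩
  choose S γ' h1 h2 h3 h4 using hstep
  let s : ℕ → {γ : Om // γ < a} := fun n => Nat.rec ⟨d 0, hda 0⟩ (fun j γ => γ' γ j) n
  have hs : ∀ j, s (j + 1) = γ' (s j) j := fun j => rfl
  have hmono : Monotone fun j => (s j).1 := monotone_nat_of_le_succ fun j => by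
    show (s j).1 ≤ (s (j + 1)).1
    rw [hs]
    exact h1 _ _
  refine ⟨fun j => (s j).1, fun j => S (s j) j, ?_, hmono, ?_, ?_⟩
  · intro j β hβ
    have h := h3 (s j) j β hβ
    refine ⟨h.1, ?_, lt_of_le_of_lt h.2 (γ' (s j) j).2⟩
    show β ≤ (s (j + 1)).1
    rw [hs]
    exact h.2
  · intro γ hγ
    obtain ⟨δ, hδ, hγδ⟩ := hlim γ hγ
    have : δ ∈ Set.range d := by
      rw [← hd]
      exact hδ
    obtain ⟨k, rfl⟩ := this
    refine ⟨k, fun j hj _ => lt_of_lt_of_le hγδ (le_trans ?_ (hmono hj))⟩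
    show d k ≤ (s k).1
    cases k with
    | zero => exact le_rfl
    | succ k =>
      rw [hs]
      exact h2 _ _
  · intro _ _ _ j
    exact h4 _ _

theorem exists_cap (h : Diamond) : ∃ (g : Om → ℕ → Om) (F : Om → ℕ → Finset Om),
    Ladder g F ∧ Cap F := by
  classical
  have := hni_infinite
  have hc : #(Finset Om × ℕ) ≤ #Om := by
    have h0 : ℵ₀ ≤ #Om := Cardinal.aleph0_le_mk Om
    rw [Cardinal.mk_prod, Cardinal.lift_id, Cardinal.lift_id, Cardinal.mk_finset_of_infinite,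
      Cardinal.mk_nat]
    exact (Cardinal.mul_eq_left h0 h0 Cardinal.aleph0_ne_zero).le
  obtain ⟨c⟩ := hc
  obtain ⟨A, hA⟩ := h
  have h1 := fun a : Om => one_ladder a (fun S j => A a (c (S, j)) ∧ c (S, j) < a)
  choose g F hg1 hg2 hg3 hg4 using h1
  refine ⟨g, F, ⟨hg1, hg2, hg3⟩, fun R hR => ?_⟩
  choose T hT1 hT2 using hR
  have hφ : ∀ γ : Om, ∃ δ : Om, γ < δ ∧ ∀ j, c (T γ j, j) ≤ δ ∧ ∀ β ∈ T γ j, β ≤ δ := by
    intro γ
    have h2 : ∀ j, ∃ u : Om, γ ≤ u ∧ c (T γ j, j) ≤ u ∧ ∀ β ∈ T γ j, β ≤ u := by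
      intro j
      have hne : (insert γ (insert (c (T γ j, j)) (T γ j))).Nonempty :=
        ⟨γ, Finset.mem_insert_self _ _⟩
      refine ⟨(insert γ (insert (c (T γ j, j)) (T γ j))).max' hne, ?_, ?_, ?_⟩
      · exact Finset.le_max' _ _ (Finset.mem_insert_self _ _)
      · exact Finset.le_max' _ _ (Finset.mem_insert_of_mem (Finset.mem_insert_self _ _))
      · intro β hβ
        exact Finset.le_max' _ _ (Finset.mem_insert_of_mem (Finset.mem_insert_of_mem hβ))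
    choose u hu1 hu2 hu3 using h2
    obtain ⟨δ, hδ⟩ := om_bound u
    exact ⟨δ, lt_of_le_of_lt (hu1 0) (hδ 0), fun j => ⟨(hu2 j).trans (hδ j).le,
      fun β hβ => (hu3 j β hβ).trans (hδ j).le⟩⟩
  choose φ hφ1 hφ2 using hφ
  obtain ⟨a, ⟨ha1, ha2⟩, ha3⟩ := hA (fun b => ∃ S j, b = c (S, j) ∧ R S j) _ (isClub_closure φ)
  refine ⟨a, fun j => ?_⟩
  have h5 := hg4 a ha1 (fun γ hγ => ⟨φ γ, ha2 γ hγ, hφ1 γ⟩) (by
    intro γ hγ j
    refine ⟨T γ j, fun β hβ => ⟨hT1 γ j β hβ, lt_of_le_of_lt ((hφ2 γ j).2 β hβ) (ha2 γ hγ)⟩, ?_⟩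
    have h6 : c (T γ j, j) < a := lt_of_le_of_lt (hφ2 γ j).1 (ha2 γ hγ)
    exact ⟨(ha3 _ h6).1 ⟨_, _, rfl, hT2 γ j⟩, h6⟩) j
  obtain ⟨S, i, h7, h8⟩ := (ha3 _ h5.2).2 h5.1
  have h9 := c.injective h7
  rw [Prod.mk.injEq] at h9
  obtain ⟨rfl, rfl⟩ := h9
  exact h8

end Pool.Agent.N482.RD
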