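import Pool.Agent.N482.RD.Cap
import Pool.Agent.R582.Rand.Reg
import Pool.Agent.R582.Rand.Prod

set_option autoImplicit false

/-!
# The guessing property in extensions by measure algebras
-/

namespace Pool.Agent.N482.RD

open Set Topology Cardinal MeasureTheory Filter
open scoped ENNReal
open Pool.Agent.Helper732.HN (Om om_countable om_bound om_gt)
open Pool.Agent.Helper292.SP (fnot fand fall fimp fiff fex fground meets IsFun mem_fex mem_fimp
  not_fex down_meets meets_cst meets_of_mem IsFun_tot IsFun_fun)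
open Pool.Agent.R582.Rand

/-- the set named by `H` is unbounded in `ω₁` -/
def FUnb {P : Type} [Preorder P] (H : Om → Set P) : Set P :=
  fall fun γ : Om => fex fun β : Om => fand (fground (γ < β)) (meets (H β))

/-- `Guess F` in the extension -/
def FGuess (P : Type) [Preorder P] (F : Om → ℕ → Finset Om) : Set P :=
  fall fun H : Om → Set P => fall fun K : Om → Set P => fimp (fand (FUnb H) (FUnb K))
    (fex fun α : Om => fex fun i : ℕ => fall fun j : ℕ => fall fun _ : i ≤ j =>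
      fand (fex fun β : Om => fand (fground (β ∈ F α j)) (meets (H β)))
        (fex fun β : Om => fand (fground (β ∈ F α j)) (meets (K β))))

variable {Ω : Type} [MeasurableSpace Ω] {μ : Measure Ω} [IsFiniteMeasure μ]

theorem cover (H : Om → Set (MAlg μ)) {q : MAlg μ} (hq : q ∈ FUnb H) (γ : Om) {ε : ℝ≥0∞}
    (hε : 0 < ε) : ∃ S : Finset Om, (∀ β ∈ S, γ < β) ∧ μ (q.s \ ⋃ β ∈ S, val (H β)) < ε := by
  classical
  obtain ⟨A, hA, hsup⟩ := exists_sup (μ := μ) {A | A = ∅ ∨ ∃ β, γ < β ∧ A = val (H β)} (by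
    rintro A (rfl | ⟨β, -, rfl⟩)
    · exact MeasurableSet.empty
    · exact val_meas _) (Or.inl rfl)
  have hAm : ∀ n, MeasurableSet (A n) := by
    intro n
    rcases hA n with h | ⟨β, -, h⟩
    · rw [h]; exact MeasurableSet.empty
    · rw [h]; exact val_meas _
  have h0 : μ (q.s \ ⋃ n, A n) = 0 := by
    refine null_of_dense (MeasurableSet.iUnion hAm) fun r hr => ?_
    obtain ⟨r', hr', β, hβ, hm⟩ := mem_fex.1 (hq γ) r hr
    exact ⟨r', hr', null_diff_trans (mem_meets.1 hm) (hsup _ (Or.inr ⟨β, hβ, rfl⟩))⟩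
  have hS : ∀ n, ∃ S : Finset Om, (∀ β ∈ S, γ < β) ∧ A n ⊆ ⋃ β ∈ S, val (H β) := by
    intro n
    rcases hA n with h | ⟨β, hβ, h⟩
    · exact ⟨∅, by simp, by rw [h]; exact empty_subset _⟩
    · refine ⟨{β}, by simpa using hβ, ?_⟩
      rw [h]
      simp
  choose S hS1 hS2 using hS
  have hanti : Antitone fun n => q.s \ ⋃ i ∈ Finset.range n, A i := by
    intro m n hmn x hx
    refine ⟨hx.1, fun h => hx.2 ?_⟩
    simp only [mem_iUnion, Finset.mem_range] at h ⊢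
    obtain ⟨i, hi, hxi⟩ := h
    exact ⟨i, lt_of_lt_of_le hi hmn, hxi⟩
  have hlim := tendsto_measure_iInter_atTop (μ := μ)
    (s := fun n => q.s \ ⋃ i ∈ Finset.range n, A i)
    (fun n => (q.meas.diff (Finset.measurableSet_biUnion _ fun i _ => hAm i)).nullMeasurableSet)
    hanti ⟨0, measure_ne_top _ _⟩
  have hint : (⋂ n, q.s \ ⋃ i ∈ Finset.range n, A i) = q.s \ ⋃ n, A n := by
    ext x
    simp only [mem_iInter, mem_diff, mem_iUnion, Finset.mem_range, not_exists]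
    constructor
    · intro h
      exact ⟨(h 0).1, fun n hn => (h (n + 1)).2 n (Nat.lt_succ_self n) hn⟩
    · rintro ⟨h1, h2⟩ n
      exact ⟨h1, fun i _ => h2 i⟩
  rw [hint, h0] at hlim
  obtain ⟨n, hn⟩ := ((hlim.eventually (gt_mem_nhds hε))).exists
  refine ⟨(Finset.range n).biUnion S, ?_, lt_of_le_of_lt (measure_mono ?_) hn⟩
  · intro β hβ
    obtain ⟨i, -, hi⟩ := Finset.mem_biUnion.1 hβ
    exact hS1 i β hi
  · intro x hx
    refine ⟨hx.1, fun h => hx.2 ?_⟩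
    simp only [mem_iUnion, Finset.mem_range] at h
    obtain ⟨i, hi, hxi⟩ := h
    obtain ⟨β, hβ, hxβ⟩ := mem_iUnion₂.1 (hS2 i hxi)
    exact mem_iUnion₂.2 ⟨β, Finset.mem_biUnion.2 ⟨i, Finset.mem_range.2 hi, hβ⟩, hxβ⟩

theorem hit {H : Om → Set (MAlg μ)} {S : Finset Om} {r : MAlg μ}
    (hr : μ (r.s \ ⋃ β ∈ S, val (H β)) = 0) :
    r ∈ fex fun β : Om => fand (fground (β ∈ S)) (meets (H β)) := by
  refine mem_fex.2 fun u hu => ?_
  have h1 : μ (u.s \ ⋃ β ∈ S, val (H β)) = 0 := null_diff_trans hu hr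
  have h2 : ∃ β ∈ S, μ (u.s ∩ val (H β)) ≠ 0 := by
    by_contra hcon
    push Not at hcon
    apply u.pos
    have h3 : u.s ⊆ (u.s \ ⋃ β ∈ S, val (H β)) ∪ ⋃ β ∈ S, u.s ∩ val (H β) := by
      intro x hx
      by_cases hx' : x ∈ ⋃ β ∈ S, val (H β)
      · right
        obtain ⟨β, hβ, h⟩ := mem_iUnion₂.1 hx'
        exact mem_iUnion₂.2 ⟨β, hβ, hx, h⟩
      · exact Or.inl ⟨hx, hx'⟩
    refine measure_mono_null h3 (measure_union_null h1 ?_)
    exact (measure_biUnion_null_iff S.countable_toSet).2 hcon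
  obtain ⟨β, hβ, h⟩ := h2
  exact ⟨u.inter _ (val_meas _) h, u.inter_le _ _ _, β, hβ,
    mem_meets.2 (null_diff_of_subset inter_subset_right)⟩

theorem guess_forced {F : Om → ℕ → Finset Om} (hF : Cap F) (p : MAlg μ) :
    p ∈ FGuess (MAlg μ) F := by
  classical
  intro H K
  refine mem_fimp.2 fun q _ hq => ?_
  obtain ⟨hH, hK⟩ := hq
  obtain ⟨α, hα⟩ := hF (fun S j => μ (q.s \ ⋃ β ∈ S, val (H β)) < (2⁻¹ : ℝ≥0∞) ^ j ∧
    μ (q.s \ ⋃ β ∈ S, val (K β)) < (2⁻¹ : ℝ≥0∞) ^ j) (by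
    intro γ j
    have hpos : (0 : ℝ≥0∞) < (2⁻¹ : ℝ≥0∞) ^ j := ENNReal.pow_pos (by simp) j
    obtain ⟨S, hS1, hS2⟩ := cover H hH γ hpos
    obtain ⟨T, hT1, hT2⟩ := cover K hK γ hpos
    refine ⟨S ∪ T, ?_, lt_of_le_of_lt (measure_mono ?_) hS2,
      lt_of_le_of_lt (measure_mono ?_) hT2⟩
    · intro β hβ
      rcases Finset.mem_union.1 hβ with h | h
      · exact hS1 β h
      · exact hT1 β h
    · intro x hx
      refine ⟨hx.1, fun h => hx.2 ?_⟩
      obtain ⟨β, hβ, h⟩ := mem_iUnion₂.1 h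
      exact mem_iUnion₂.2 ⟨β, Finset.mem_union_left _ hβ, h⟩
    · intro x hx
      refine ⟨hx.1, fun h => hx.2 ?_⟩
      obtain ⟨β, hβ, h⟩ := mem_iUnion₂.1 h
      exact mem_iUnion₂.2 ⟨β, Finset.mem_union_right _ hβ, h⟩)
  set UH : ℕ → Set Ω := fun j => ⋃ β ∈ F α j, val (H β) with hUH
  set UK : ℕ → Set Ω := fun j => ⋃ β ∈ F α j, val (K β) with hUK
  have hUHm : ∀ j, MeasurableSet (UH j) := fun j =>
    Finset.measurableSet_biUnion _ fun β _ => val_meas _
  have hUKm : ∀ j, MeasurableSet (UK j) := fun j =>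
    Finset.measurableSet_biUnion _ fun β _ => val_meas _
  set B : ℕ → Set Ω := fun j => (q.s \ UH j) ∪ (q.s \ UK j) with hB
  have hBm : ∀ j, MeasurableSet (B j) := fun j =>
    (q.meas.diff (hUHm j)).union (q.meas.diff (hUKm j))
  have hsum : ∑' j, μ (B j) ≠ ∞ := by
    have h1 : ∀ j, μ (B j) ≤ 2 * (2⁻¹ : ℝ≥0∞) ^ j := by
      intro j
      refine (measure_union_le _ _).trans ?_
      rw [two_mul]
      exact add_le_add (hα j).1.le (hα j).2.le
    refine ne_top_of_le_ne_top ?_ (ENNReal.tsum_le_tsum h1)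
    rw [ENNReal.tsum_mul_left, ENNReal.tsum_geometric]
    simp [ENNReal.one_sub_inv_two, ENNReal.mul_ne_top]
  have hbc := ae_eventually_notMem hsum
  set E : ℕ → Set Ω := fun i => q.s ∩ ⋂ j ∈ Set.Ici i, (B j)ᶜ with hE
  have hEm : ∀ i, MeasurableSet (E i) := fun i =>
    q.meas.inter (MeasurableSet.biInter (Set.to_countable _) fun j _ => (hBm j).compl)
  have hex : ∃ i, μ (E i) ≠ 0 := by
    by_contra hcon
    push Not at hcon
    apply q.pos
    have h1 : μ (⋃ i, E i) = 0 := measure_iUnion_null hcon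
    rw [measure_eq_zero_iff_ae_notMem] at h1 ⊢
    filter_upwards [h1, hbc] with x hx1 hx2 hx
    apply hx1
    obtain ⟨i, hi⟩ := eventually_atTop.1 hx2
    exact mem_iUnion.2 ⟨i, hx, mem_iInter₂.2 fun j hj => hi j hj⟩
  obtain ⟨i, hi⟩ := hex
  refine ⟨⟨E i, hEm i, hi⟩, null_diff_of_subset inter_subset_left, ?_⟩
  refine mem_fex.2 fun s hs => ⟨s, le_rfl, α, mem_fex.2 fun t ht => ⟨t, le_rfl, i, fun j hj => ?_⟩⟩
  have h2 : μ (t.s \ E i) = 0 := null_diff_trans ht hs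
  refine ⟨hit (null_diff_trans h2 (null_diff_of_subset ?_)),
    hit (null_diff_trans h2 (null_diff_of_subset ?_))⟩
  · intro x hx
    have h3 := (mem_iInter₂.1 hx.2) j hj
    by_contra h4
    exact h3 (Or.inl ⟨hx.1, h4⟩)
  · intro x hx
    have h3 := (mem_iInter₂.1 hx.2) j hj
    by_contra h4
    exact h3 (Or.inr ⟨hx.1, h4⟩)

end Pool.Agent.N482.RD
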