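import Pool.Agent.N482.RD.Force

set_option autoImplicit false

/-!
# There are no Lusin sets after adding many random reals
-/

namespace Pool.Agent.N482.RD

open Set Topology Cardinal MeasureTheory Filter
open scoped ENNReal
open Pool.Agent.Helper732.HN (Om om_countable om_bound om_gt)
open Pool.Agent.Helper292.SP (fnot fand fall fimp fiff fex fground meets IsFun mem_fex mem_fimp
  not_fex down_meets meets_cst meets_of_mem IsFun_tot IsFun_fun)
open Pool.Agent.H631R2 (mem_fiff_meets)
open Pool.Agent.R582.Rand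

/-- For every family of `ℵ₁` many sequences of finite sequences (of lengths `0, 1, 2, ...`) of bits
there is one sequence which differs from each of them at almost all places. -/
def Evd : Prop :=
  ∀ x : Om → ℕ → ℕ → Prop, ∃ z : ℕ → ℕ → Prop, ∀ α : Om, ∃ m : ℕ, ∀ k : ℕ, m ≤ k →
    ∃ i : ℕ, i < k ∧ ¬ (x α k i ↔ z k i)

/-- `Evd` in the extension -/
def FEvd (P : Type) [Preorder P] : Set P :=
  fall fun x : Om → ℕ → ℕ → Set P => fex fun z : ℕ → ℕ → Set P => fall fun α : Om =>
    fex fun m : ℕ => fall fun k : ℕ => fall fun _ : m ≤ k => fex fun i : ℕ =>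
      fand (fground (i < k)) (fnot (fiff (meets (x α k i)) (meets (z k i))))

theorem evd_forced {X : Type} (hX : ℵ₁ < #X) (p : MAlg (coins X)) : p ∈ FEvd (MAlg (coins X)) := by
  classical
  intro x
  choose C hC1 hC2 using fun (α : Om) (k i : ℕ) => exists_countable (val_meas (x α k i))
  set D : Set X := ⋃ α, ⋃ k, ⋃ i, C α k i with hD
  have hDc : #D ≤ ℵ₁ := by
    have h1 : D = ⋃ a : Om × ℕ × ℕ, C a.1 a.2.1 a.2.2 := by
      ext y
      simp only [hD, mem_iUnion, Prod.exists]
    rw [h1]
    have h2 : ∀ a : Om × ℕ × ℕ, #(C a.1 a.2.1 a.2.2) ≤ ℵ₀ := fun a =>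
      Cardinal.mk_le_aleph0_iff.2 (hC1 _ _ _).to_subtype
    calc #(⋃ a : Om × ℕ × ℕ, C a.1 a.2.1 a.2.2)
        ≤ Cardinal.sum fun a : Om × ℕ × ℕ => #(C a.1 a.2.1 a.2.2) := Cardinal.mk_iUnion_le_sum_mk
      _ ≤ Cardinal.sum fun _ : Om × ℕ × ℕ => ℵ₀ := Cardinal.sum_le_sum _ _ h2
      _ = #(Om × ℕ × ℕ) * ℵ₀ := Cardinal.sum_const' _ _
      _ = ℵ₁ := by
        have h4 : #Om = ℵ₁ := by simp
        rw [Cardinal.mk_prod, Cardinal.lift_id, Cardinal.lift_id, h4,
          Cardinal.mk_eq_aleph0 (ℕ × ℕ),
          Cardinal.mul_eq_left Cardinal.aleph0_lt_aleph_one.le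
            Cardinal.aleph0_lt_aleph_one.le Cardinal.aleph0_ne_zero,
          Cardinal.mul_eq_left Cardinal.aleph0_lt_aleph_one.le
            Cardinal.aleph0_lt_aleph_one.le Cardinal.aleph0_ne_zero]
      _ ≤ ℵ₁ := le_rfl
  have hinf : (Dᶜ).Infinite := by
    intro hfin
    have h1 : #X ≤ ℵ₁ := by
      rw [← Cardinal.mk_univ, ← union_compl_self D]
      refine (Cardinal.mk_union_le _ _).trans ?_
      refine (add_le_add hDc (hfin.lt_aleph0.le.trans Cardinal.aleph0_lt_aleph_one.le)).trans ?_
      rw [Cardinal.add_eq_self Cardinal.aleph0_lt_aleph_one.le]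
    exact absurd hX (not_lt.2 h1)
  have : Infinite (Dᶜ : Set X) := hinf.to_subtype
  let e0 : ℕ ↪ (Dᶜ : Set X) := Infinite.natEmbedding _
  let e : ℕ → ℕ → X := fun k i => (e0 (Nat.pair k i) : X)
  have he : ∀ k i, e k i ∉ D := fun k i => (e0 (Nat.pair k i)).2
  have hinj : ∀ k, Function.Injective fun i : Fin k => e k i := by
    intro k i j hij
    have h1 := e0.injective (Subtype.ext hij)
    exact Fin.ext (Nat.pair_eq_pair.1 h1).2
  have hzm : ∀ k i, MeasurableSet {ω : X → Bool | ω (e k i) = true} := by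
    intro k i
    have h : Measurable fun ω : X → Bool => ω (e k i) := measurable_pi_apply _
    exact h (measurableSet_singleton true)
  refine mem_fex.2 fun q _ => ⟨q, le_rfl, fun k i => cst {ω | ω (e k i) = true}, fun α =>
    mem_fex.2 fun r _ => ?_⟩
  set V : ℕ → ℕ → Set (X → Bool) := fun k i => val (x α k i) with hV
  have hVm : ∀ k i, MeasurableSet (V k i) := fun k i => val_meas _
  have hVD : ∀ k i, MeasurableSet[mA D] (V k i) := fun k i =>
    mA_mono (subset_iUnion_of_subset α (subset_iUnion_of_subset k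
      (subset_iUnion_of_subset i subset_rfl))) _ (hC2 α k i)
  set bad : ℕ → Set (X → Bool) := fun k =>
    {ω | ∀ i : Fin k, ω (e k i) = decide (ω ∈ V k i)} with hbad
  have hbm : ∀ k, coins X (bad k) ≤ (2⁻¹ : ℝ≥0∞) ^ k := by
    intro k
    have h1 := coins_match (X := X) (fun i : Fin k => e k i) (hinj k) D (fun i => he k i)
      (fun ω i => decide (ω ∈ V k i)) (by
        intro s
        have h2 : {ω : X → Bool | (fun i : Fin k => decide (ω ∈ V k i)) = s} =
            ⋂ i : Fin k, {ω | decide (ω ∈ V k i) = s i} := by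
          ext ω
          simp only [mem_setOf_eq, mem_iInter, funext_iff]
        rw [h2]
        refine MeasurableSet.iInter fun i => ?_
        cases hsi : s i
        · have h3 : {ω : X → Bool | decide (ω ∈ V k i) = false} = (V k i)ᶜ := by
            ext ω
            simp
          rw [h3]
          exact (hVD k i).compl
        · have h3 : {ω : X → Bool | decide (ω ∈ V k i) = true} = V k i := by
            ext ω
            simp
          rw [h3]
          exact hVD k i) univ MeasurableSet.univ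
    rw [univ_inter, measure_univ, one_mul] at h1
    exact h1
  have hsum : ∑' k, coins X (bad k) ≠ ∞ := by
    refine ne_top_of_le_ne_top ?_ (ENNReal.tsum_le_tsum hbm)
    rw [ENNReal.tsum_geometric]
    simp [ENNReal.one_sub_inv_two]
  have hbc := ae_eventually_notMem hsum
  have hbadm : ∀ k, MeasurableSet (bad k) := by
    intro k
    have h1 : bad k = ⋂ i : Fin k, ({ω | ω (e k i) = true} ∩ V k i) ∪
        ({ω | ω (e k i) = true}ᶜ ∩ (V k i)ᶜ) := by
      ext ω
      simp only [hbad, mem_setOf_eq, mem_iInter, mem_union, mem_inter_iff, mem_compl_iff]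
      refine forall_congr' fun i => ?_
      by_cases h : ω ∈ V k i
      · simp [h]
      · simp [h]
    rw [h1]
    exact MeasurableSet.iInter fun i => ((hzm k i).inter (hVm k i)).union
      ((hzm k i).compl.inter (hVm k i).compl)
  set E : ℕ → Set (X → Bool) := fun m => r.s ∩ ⋂ k ∈ Set.Ici m, (bad k)ᶜ with hE
  have hEm : ∀ m, MeasurableSet (E m) := fun m =>
    r.meas.inter (MeasurableSet.biInter (Set.to_countable _) fun k _ => (hbadm k).compl)
  have hex : ∃ m, coins X (E m) ≠ 0 := by
    by_contra hcon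
    push Not at hcon
    apply r.pos
    have h1 : coins X (⋃ i, E i) = 0 := measure_iUnion_null hcon
    rw [measure_eq_zero_iff_ae_notMem] at h1 ⊢
    filter_upwards [h1, hbc] with ω hω1 hω2 hω
    apply hω1
    obtain ⟨i, hi⟩ := eventually_atTop.1 hω2
    exact mem_iUnion.2 ⟨i, hω, mem_iInter₂.2 fun j hj => hi j hj⟩
  obtain ⟨m, hm⟩ := hex
  refine ⟨⟨E m, hEm m, hm⟩, null_diff_of_subset inter_subset_left, m, fun k hk =>
    mem_fex.2 fun u hu => ?_⟩
  have h2 : coins X (u.s \ (bad k)ᶜ) = 0 := by
    refine null_diff_trans hu (null_diff_of_subset ?_)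
    intro ω hω
    exact (mem_iInter₂.1 hω.2) k hk
  set Df : ℕ → Set (X → Bool) := fun i => ({ω | ω (e k i) = true} ∩ (V k i)ᶜ) ∪
    ({ω | ω (e k i) = true}ᶜ ∩ V k i) with hDf
  have hDm : ∀ i, MeasurableSet (Df i) := fun i =>
    ((hzm k i).inter (hVm k i).compl).union ((hzm k i).compl.inter (hVm k i))
  have h3 : ∃ i : Fin k, coins X (u.s ∩ Df i) ≠ 0 := by
    by_contra hcon
    push Not at hcon
    apply u.pos
    have h4 : u.s ⊆ (u.s \ (bad k)ᶜ) ∪ ⋃ i : Fin k, u.s ∩ Df i := by
      intro ω hω
      by_cases h : ω ∈ bad k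
      · left
        exact ⟨hω, fun h' => h' h⟩
      · right
        simp only [hbad, mem_setOf_eq, not_forall] at h
        obtain ⟨i, hi⟩ := h
        refine mem_iUnion.2 ⟨i, hω, ?_⟩
        by_cases hv : ω ∈ V k i
        · right
          refine ⟨fun h1 => hi ?_, hv⟩
          have h1' : ω (e k i) = true := h1
          rw [h1']
          simp [hv]
        · left
          refine ⟨?_, hv⟩
          show ω (e k i) = true
          by_contra h1
          apply hi
          simp [hv, Bool.eq_false_iff.2 h1]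
    exact measure_mono_null h4 (measure_union_null h2 (measure_iUnion_null hcon))
  obtain ⟨i, hi⟩ := h3
  refine ⟨u.inter _ (hDm i) hi, u.inter_le _ _ _, i, i.2, fun w hw hfi => ?_⟩
  rw [mem_fiff_meets] at hfi
  have hwD : coins X (w.s \ Df i) = 0 :=
    null_diff_trans hw (null_diff_of_subset inter_subset_right)
  by_cases hc : coins X (w.s ∩ V k i) = 0
  · -- outside of `V` the coin is true
    have h5 : w ∈ meets (cst {ω : X → Bool | ω (e k i) = true} : Set (MAlg (coins X))) := by
      rw [mem_meets_cst (hzm k i)]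
      refine measure_mono_null ?_ (measure_union_null hwD hc)
      rintro ω ⟨hω, hω'⟩
      by_cases h : ω ∈ Df i
      · right
        refine ⟨hω, ?_⟩
        rcases h with h | h
        · exact absurd h.1 hω'
        · exact h.2
      · exact Or.inl ⟨hω, h⟩
    have h6 := mem_meets.1 ((hfi w le_rfl).2 h5)
    apply w.pos
    refine measure_mono_null ?_ (measure_union_null h6 hc)
    intro ω hω
    by_cases h : ω ∈ V k i
    · exact Or.inr ⟨hω, h⟩
    · exact Or.inl ⟨hω, h⟩
  · have h5 : w.inter _ (hVm k i) hc ∈ meets (x α k i) :=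
      mem_meets.2 (null_diff_of_subset inter_subset_right)
    have h6 := (mem_meets_cst (hzm k i)).1 ((hfi _ (w.inter_le _ _ _)).1 h5)
    apply hc
    refine measure_mono_null ?_ (measure_union_null h6 hwD)
    rintro ω ⟨hω, hω'⟩
    by_cases h : ω ∈ Df i
    · left
      refine ⟨⟨hω, hω'⟩, fun h1 => ?_⟩
      rcases h with h | h
      · exact h.2 hω'
      · exact h.1 h1
    · exact Or.inr ⟨hω, h⟩

end Pool.Agent.N482.RD
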