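import Pool.Agent.N482.RD.Lusin

set_option autoImplicit false

/-!
# No Lusin sets
-/

namespace Pool.Agent.N482.RD

open Set Topology Cardinal Filter
open Pool.Agent.Helper732.HN (Om om_countable om_bound om_gt)

/-- `L` is a Lusin set of reals -/
def Lusin (L : Set ℝ) : Prop := ¬ L.Countable ∧ ∀ M : Set ℝ, IsMeagre M → (L ∩ M).Countable

/-- the `k`-th block of a real, a number below `2 ^ k` -/
noncomputable def blk (k : ℕ) (r : ℝ) : ℕ := (⌊(4 : ℝ) ^ k * r⌋ % (2 : ℤ) ^ k).toNat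

theorem om_not_countable : ¬ (Set.univ : Set Om).Countable := by
  intro h2
  rw [Set.countable_univ_iff, ← Cardinal.mk_le_aleph0_iff] at h2
  have h4 : #Om = ℵ₁ := by simp
  rw [h4] at h2
  exact absurd h2 (not_le.2 Cardinal.aleph0_lt_aleph_one)

/-- the open set of the reals which agree with `z` in some block after the `m`-th -/
def Opn (z : ℕ → ℕ) (m : ℕ) : Set ℝ :=
  {r | ∃ k : ℕ, m ≤ k ∧ ∃ N : ℤ, (N % (2 : ℤ) ^ k).toNat = z k ∧
    (N : ℝ) / 4 ^ k < r ∧ r < (N + 1) / 4 ^ k}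

theorem isOpen_Opn (z : ℕ → ℕ) (m : ℕ) : IsOpen (Opn z m) := by
  have h : Opn z m = ⋃ k : ℕ, ⋃ _ : m ≤ k, ⋃ N : ℤ, ⋃ _ : (N % (2 : ℤ) ^ k).toNat = z k,
      Ioo ((N : ℝ) / 4 ^ k) ((N + 1) / 4 ^ k) := by
    ext r
    simp only [Opn, mem_iUnion, mem_Ioo, mem_setOf_eq, exists_prop]
  rw [h]
  exact isOpen_iUnion fun k => isOpen_iUnion fun _ => isOpen_iUnion fun N => isOpen_iUnion fun _ =>
    isOpen_Ioo

theorem dense_Opn (z : ℕ → ℕ) (hz : ∀ k, z k < 2 ^ k) (m : ℕ) : Dense (Opn z m) := by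
  rw [Metric.dense_iff]
  intro x ε hε
  obtain ⟨k, hk⟩ : ∃ k : ℕ, m ≤ k ∧ (1 / 2 : ℝ) ^ k < ε := by
    have h1 : ∀ᶠ k : ℕ in atTop, (1 / 2 : ℝ) ^ k < ε :=
      (tendsto_pow_atTop_nhds_zero_of_lt_one (by norm_num) (by norm_num)).eventually
        (gt_mem_nhds hε)
    exact ((eventually_ge_atTop m).and h1).exists
  set q : ℤ := ⌊(2 : ℝ) ^ k * x⌋ with hq
  set N : ℤ := z k + 2 ^ k * q with hN
  have h2 : (0 : ℝ) < 2 ^ k := by positivity
  have h4 : (0 : ℝ) < 4 ^ k := by positivity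
  have h42 : (4 : ℝ) ^ k = 2 ^ k * 2 ^ k := by
    rw [← mul_pow]; norm_num
  have hzk : (z k : ℝ) + 1 ≤ 2 ^ k := by exact_mod_cast hz k
  have hz0 : (0 : ℝ) ≤ z k := by positivity
  have hq1 : (q : ℝ) ≤ 2 ^ k * x := Int.floor_le _
  have hq2 : 2 ^ k * x < q + 1 := Int.lt_floor_add_one _
  have hNr : (N : ℝ) = z k + 2 ^ k * q := by
    rw [hN]; push_cast; ring
  refine ⟨((N : ℝ) + 1 / 2) / 4 ^ k, ?_, k, hk.1, N, ?_, ?_, ?_⟩
  · rw [Metric.mem_ball, Real.dist_eq]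
    refine lt_of_le_of_lt ?_ hk.2
    have h5 : ((N : ℝ) + 1 / 2) / 4 ^ k - x = (N + 1 / 2 - 4 ^ k * x) / 4 ^ k := by
      field_simp
    rw [h5, abs_div, abs_of_pos h4, div_le_iff₀ h4]
    have h6 : (1 / 2 : ℝ) ^ k * 4 ^ k = 2 ^ k := by
      rw [← mul_pow]; norm_num
    rw [h6, abs_le, hNr, h42]
    constructor
    · nlinarith
    · nlinarith
  · have h7 : N % 2 ^ k = z k := by
      rw [hN, Int.add_mul_emod_self_left]
      exact Int.emod_eq_of_lt (by positivity) (by exact_mod_cast hz k)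
    rw [h7]
    simp
  · exact (div_lt_div_iff_of_pos_right h4).2 (by linarith)
  · exact (div_lt_div_iff_of_pos_right h4).2 (by linarith)

theorem blk_of_mem {z : ℕ → ℕ} {m : ℕ} {r : ℝ} (h : r ∈ Opn z m) : ∃ k, m ≤ k ∧ blk k r = z k := by
  obtain ⟨k, hk, N, h1, h2, h3⟩ := h
  refine ⟨k, hk, ?_⟩
  have h4 : (0 : ℝ) < 4 ^ k := by positivity
  have h5 : ⌊(4 : ℝ) ^ k * r⌋ = N := by
    rw [Int.floor_eq_iff]
    rw [div_lt_iff₀ h4] at h2
    rw [lt_div_iff₀ h4] at h3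
    constructor
    · linarith
    · linarith
  rw [blk, h5, h1]

/-- `Evd` implies that there are no Lusin sets. -/
theorem no_lusin (h : Evd) : ¬ ∃ L : Set ℝ, Lusin L := by
  classical
  rintro ⟨L, hL1, hL2⟩
  have h1 : #Om ≤ #L := by
    have h4 : #Om = ℵ₁ := by simp
    rw [h4]
    by_contra hlt
    push Not at hlt
    apply hL1
    rw [← Set.countable_coe_iff, ← Cardinal.mk_le_aleph0_iff]
    have h5 : ℵ₁ ≤ Order.succ (ℵ₀ : Cardinal.{0}) := Cardinal.succ_aleph0.ge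
    exact Order.lt_succ_iff.1 (hlt.trans_le h5)
  obtain ⟨l⟩ := h1
  obtain ⟨z, hz⟩ := h fun α k i => (blk k (l α : ℝ)).testBit i = true
  set zn : ℕ → ℕ := fun k => Nat.ofBits fun i : Fin k => decide (z k i) with hzn
  have hznlt : ∀ k, zn k < 2 ^ k := fun k => Nat.ofBits_lt_two_pow _
  have hbit : ∀ k i, i < k → ((zn k).testBit i = true ↔ z k i) := by
    intro k i hi
    rw [hzn]
    simp only
    rw [Nat.testBit_ofBits_lt _ _ hi]
    simp
  set M : Set ℝ := ⋃ m, (Opn zn m)ᶜ with hM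
  have hMm : IsMeagre M := by
    refine isMeagre_iUnion fun m => ?_
    show (Opn zn m)ᶜᶜ ∈ residual ℝ
    rw [compl_compl]
    exact residual_of_dense_open (isOpen_Opn zn m) (dense_Opn zn hznlt m)
  have hsub : Set.range (fun α : Om => (l α : ℝ)) ⊆ L ∩ M := by
    rintro _ ⟨α, rfl⟩
    refine ⟨(l α).2, ?_⟩
    obtain ⟨m, hm⟩ := hz α
    refine mem_iUnion.2 ⟨m, fun hmem => ?_⟩
    obtain ⟨k, hk, hblk⟩ := blk_of_mem hmem
    obtain ⟨i, hi, hne⟩ := hm k hk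
    apply hne
    rw [hblk]
    exact hbit k i hi
  have hc := (hL2 M hMm).mono hsub
  apply om_not_countable
  have hinj : Function.Injective (fun α : Om => (l α : ℝ)) := fun a b hab =>
    l.injective (Subtype.ext hab)
  rw [← Set.image_univ] at hc
  exact Set.countable_of_injective_of_countable_image hinj.injOn hc

end Pool.Agent.N482.RD
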