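import Pool.Agent.N482.RD.Topo

set_option autoImplicit false

/-!
# The topological properties
-/

namespace Pool.Agent.N482.RD

open Set Topology Cardinal Filter
open Pool.Agent.Helper732.HN (Om om_countable om_bound om_gt)
open Pool.Agent.Helper996.Dowker (CountablyParacompact finish not_cp)

/-- an unbounded set of countable ordinals -/
def Unb (H : Om → Prop) : Prop := ∀ γ : Om, ∃ β : Om, γ < β ∧ H β

/-- the guessing property of the ladder system: for any two unbounded sets there is `α` such that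
all but finitely many of the finite sets at `α` meet both of them -/
def Guess (F : Om → ℕ → Finset Om) : Prop :=
  ∀ H K : Om → Prop, Unb H → Unb K → ∃ α : Om, ∃ i : ℕ, ∀ j : ℕ, i ≤ j →
    (∃ β : Om, β ∈ F α j ∧ H β) ∧ (∃ β : Om, β ∈ F α j ∧ K β)

variable {g : Om → ℕ → Om} {F : Om → ℕ → Finset Om}

/-- basic neighbourhood -/
def N (g : Om → ℕ → Om) (F : Om → ℕ → Finset Om) (z : Om × ℕ) (l : ℕ) : Set (Om × ℕ) :=
  {x | Mem g F z.1 z.2 l x}

theorem isOpen_iff {U : Set (Om × ℕ)} :
    IsOpen[topo g F] U ↔ ∀ z ∈ U, ∃ l, N g F z l ⊆ U := Iff.rfl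

theorem mem_N (z : Om × ℕ) (l : ℕ) : z ∈ N g F z l := Mem.self _ _ _

theorem isOpen_N (hL : Ladder g F) (z : Om × ℕ) (l : ℕ) : IsOpen[topo g F] (N g F z l) :=
  fun _ hw => Mem.isOpen hL hw

theorem isClosed_N (hL : Ladder g F) (z : Om × ℕ) (l : ℕ) : IsClosed[topo g F] (N g F z l) := by
  let _ := topo g F
  rw [← isOpen_compl_iff]
  intro w hw
  obtain ⟨l', hl'⟩ := Mem.isClosed hL z.1 z.2 l w hw
  exact ⟨l', fun x hx => hl' x hx⟩

theorem hasBasis (hL : Ladder g F) (z : Om × ℕ) :
    (@nhds _ (topo g F) z).HasBasis (fun _ : ℕ => True) (N g F z) := by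
  let _ := topo g F
  constructor
  intro U
  rw [mem_nhds_iff]
  constructor
  · rintro ⟨V, hVU, hV, hz⟩
    obtain ⟨l, hl⟩ := hV z hz
    exact ⟨l, trivial, fun x hx => hVU (hl x hx)⟩
  · rintro ⟨l, -, hl⟩
    exact ⟨N g F z l, hl, isOpen_N hL z l, mem_N z l⟩

theorem regular (hL : Ladder g F) : @RegularSpace _ (topo g F) := by
  let _ := topo g F
  exact RegularSpace.of_hasBasis (fun z => hasBasis hL z) fun z l _ => isClosed_N hL z l

theorem t0 (hL : Ladder g F) : @T0Space _ (topo g F) := by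
  let _ := topo g F
  have key : ∀ z w : Om × ℕ, z ≠ w → w.1 ≤ z.1 → ∃ l, w ∉ N g F z l := by
    intro z w hne hle
    rcases hle.lt_or_eq with h | h
    · obtain ⟨l, hl⟩ := Mem.small hL h z.2
      exact ⟨l, fun hw => lt_irrefl _ (hl w hw)⟩
    · refine ⟨0, fun hw => ?_⟩
      rcases Mem.le hL hw with h' | h'
      · exact hne h'.symm
      · exact absurd h'.1 (not_lt.2 h.ge)
  refine ⟨fun z w hzw => ?_⟩
  by_contra hne
  rw [inseparable_iff_forall_isOpen] at hzw
  rcases le_total w.1 z.1 with h | h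
  · obtain ⟨l, hl⟩ := key z w hne h
    exact hl ((hzw _ (isOpen_N hL z l)).1 (mem_N z l))
  · obtain ⟨l, hl⟩ := key w z (Ne.symm hne) h
    exact hl ((hzw _ (isOpen_N hL w l)).2 (mem_N w l))

theorem t2 (hL : Ladder g F) : @T2Space _ (topo g F) := by
  let _ := topo g F
  have := regular hL
  have := t0 hL
  infer_instance

theorem firstCountable (hL : Ladder g F) : @FirstCountableTopology _ (topo g F) := by
  let _ := topo g F
  exact ⟨fun z => (hasBasis hL z).isCountablyGenerated⟩

theorem clopen_initial (hL : Ladder g F) (d : Om) : @IsClopen _ (topo g F) {x : Om × ℕ | x.1 ≤ d} := by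
  let _ := topo g F
  constructor
  · rw [← isOpen_compl_iff]
    intro z hz
    have hz' : d < z.1 := not_le.1 hz
    obtain ⟨l, hl⟩ := Mem.small hL hz' z.2
    exact ⟨l, fun x hx => not_le.2 (hl x hx)⟩
  · intro z hz
    exact ⟨0, fun x hx => (Mem.le1 hL hx).trans hz⟩

theorem countable_Iic (d : Om) : (Set.Iic d).Countable := by
  have : Set.Iic d = insert d (Set.Iio d) := by
    ext x
    simp [le_iff_eq_or_lt]
  rw [this]
  exact (om_countable d).insert _

theorem countable_initial (d : Om) : {x : Om × ℕ | x.1 ≤ d}.Countable := by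
  refine ((countable_Iic d).prod (Set.countable_univ (α := ℕ))).mono ?_
  intro x hx
  exact ⟨hx, trivial⟩

theorem countable_N (hL : Ladder g F) (z : Om × ℕ) (l : ℕ) : (N g F z l).Countable :=
  (countable_initial z.1).mono fun _ hx => Mem.le1 hL hx

theorem isCompact_N (hL : Ladder g F) (α : Om) :
    ∀ n k : ℕ, @IsCompact _ (topo g F) (N g F (α, n) k) := by
  let _ := topo g F
  induction α using WellFoundedLT.induction with
  | ind α ih =>
  intro n k
  rw [isCompact_iff_ultrafilter_le_nhds]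
  intro f hf
  by_cases h : ∀ l, N g F (α, n) l ∈ f
  · refine ⟨(α, n), mem_N _ _, ?_⟩
    rw [(hasBasis hL (α, n)).ge_iff]
    intro l _
    exact h l
  · push Not at h
    obtain ⟨l, hl⟩ := h
    -- the difference of the neighbourhoods is a closed subset of a compact set
    have h1 : N g F (α, n) k \ N g F (α, n) l ⊆ ⋃ j ∈ Finset.range l, ⋃ β ∈ F α j,
        ⋃ m ∈ Finset.range n, N g F (β, m) 0 := by
      rintro x ⟨hx, hx'⟩
      rcases Mem.inv hx with rfl | ⟨j, β, m, hk', ha, h1, h2, hβ, hm, hx2⟩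
      · exact absurd (mem_N _ _) hx'
      · simp only [mem_iUnion, Finset.mem_range]
        refine ⟨j, ?_, β, hβ, m, hm, hx2⟩
        by_contra hjl
        push Not at hjl
        exact hx' (Mem.step _ _ _ j β m _ hjl ha h1 h2 hβ hm hx2)
    have h2 : IsCompact (⋃ j ∈ Finset.range l, ⋃ β ∈ F α j,
        ⋃ m ∈ Finset.range n, N g F (β, m) 0) := by
      refine Finset.isCompact_biUnion _ fun j _ => Finset.isCompact_biUnion _ fun β hβ =>
        Finset.isCompact_biUnion _ fun m _ => ih β (hL.mem α j β hβ).2.2 m 0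
    have h3 : IsCompact (N g F (α, n) k \ N g F (α, n) l) := by
      refine h2.of_isClosed_subset ?_ h1
      exact (isClosed_N hL _ _).sdiff (isOpen_N hL _ _)
    have h4 : N g F (α, n) k \ N g F (α, n) l ∈ f := by
      refine Filter.inter_mem (Filter.le_principal_iff.1 hf) ?_
      exact Ultrafilter.compl_mem_iff_notMem.2 hl
    obtain ⟨a, ha, hfa⟩ := isCompact_iff_ultrafilter_le_nhds.1 h3 f (Filter.le_principal_iff.2 h4)
    exact ⟨a, ha.1, hfa⟩

theorem locallyCompact (hL : Ladder g F) : @LocallyCompactSpace _ (topo g F) := by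
  let _ := topo g F
  exact LocallyCompactSpace.of_hasBasis (fun z => hasBasis hL z) fun z l _ =>
    isCompact_N hL z.1 z.2 l

theorem not_countable_univ : ¬ (Set.univ : Set (Om × ℕ)).Countable := by
  intro h
  have h2 : (Set.univ : Set Om).Countable := by
    refine (h.image Prod.fst).mono ?_
    intro a _
    exact ⟨(a, 0), trivial, rfl⟩
  rw [Set.countable_univ_iff, ← Cardinal.mk_le_aleph0_iff] at h2
  have h4 : #Om = ℵ₁ := by simp
  rw [h4] at h2
  exact absurd h2 (not_le.2 Cardinal.aleph0_lt_aleph_one)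

theorem slice {A : Set (Om × ℕ)} (hA : ¬ A.Countable) : ∃ m, Unb fun β => (β, m) ∈ A := by
  by_contra hcon
  push Not at hcon
  apply hA
  have h1 : ∀ m, {x ∈ A | x.2 = m}.Countable := by
    intro m
    obtain ⟨γ, hγ⟩ := not_forall.1 (hcon m)
    push Not at hγ
    refine (countable_initial γ).mono ?_
    rintro ⟨β, m'⟩ ⟨hx, rfl⟩
    by_contra hlt
    exact hγ β (not_le.1 hlt) hx
  refine (Set.countable_iUnion h1).mono ?_
  intro x hx
  exact mem_iUnion.2 ⟨x.2, hx, rfl⟩

theorem key (hL : Ladder g F) (hG : Guess F) (A C : Set (Om × ℕ)) (hA : IsClosed[topo g F] A)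
    (hC : IsClosed[topo g F] C) (hAu : ¬ A.Countable) (hCu : ¬ C.Countable) (n : ℕ) :
    ∃ x ∈ A ∩ C, n ≤ x.2 := by
  let _ := topo g F
  obtain ⟨a, ha⟩ := slice hAu
  obtain ⟨c, hc⟩ := slice hCu
  obtain ⟨α, i, h⟩ := hG _ _ ha hc
  have hlim : ∀ (D : Set (Om × ℕ)) (m : ℕ), IsClosed D → (∀ j, i ≤ j → ∃ β, β ∈ F α j ∧ (β, m) ∈ D) →
      ∀ k, m < k → (α, k) ∈ D := by
    intro D m hD hm k hk
    by_contra hcon
    obtain ⟨l, hl⟩ := hD.isOpen_compl (α, k) hcon
    have h1 : i ≤ Nat.pair k (max i l) := (le_max_left i l).trans (Nat.right_le_pair _ _)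
    have h2 : l ≤ Nat.pair k (max i l) := (le_max_right i l).trans (Nat.right_le_pair _ _)
    obtain ⟨β, hβ, hβD⟩ := hm _ h1
    refine hl (β, m) (Mem.step _ _ _ (Nat.pair k (max i l)) β m _ h2 (by simp)
      (hL.mem _ _ β hβ).1 (hL.mem _ _ β hβ).2.1 hβ hk (Mem.self _ _ _)) hβD
  refine ⟨(α, a + c + n + 1), ⟨?_, ?_⟩, by show n ≤ a + c + n + 1; omega⟩
  · exact hlim A a hA (fun j hj => (h j hj).1) _ (by omega)
  · exact hlim C c hC (fun j hj => (h j hj).2) _ (by omega)

theorem level_open (hL : Ladder g F) (n : ℕ) : IsOpen[topo g F] {x : Om × ℕ | x.2 < n} := by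
  intro z hz
  refine ⟨0, fun x hx => ?_⟩
  rcases Mem.le hL hx with rfl | h
  · exact hz
  · exact lt_trans h.2 hz

theorem level_discrete (hL : Ladder g F) (n : ℕ) :
    @DiscreteTopology {x : Om × ℕ | x.2 = n} (@instTopologicalSpaceSubtype _ _ (topo g F)) := by
  let _ := topo g F
  rw [discreteTopology_iff_isOpen_singleton]
  intro x
  have h1 : IsOpen ((Subtype.val : {x : Om × ℕ | x.2 = n} → Om × ℕ) ⁻¹' (N g F x.1 0)) :=
    (isOpen_N hL x.1 0).preimage continuous_subtype_val
  have h2 : (Subtype.val : {x : Om × ℕ | x.2 = n} → Om × ℕ) ⁻¹' (N g F x.1 0) = {x} := by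
    ext y
    constructor
    · intro hy
      rcases Mem.le hL hy with h | h
      · exact Subtype.ext h
      · have h3 : y.1.2 = n := y.2
        have h4 : x.1.2 = n := x.2
        have h5 : y.1.2 < x.1.2 := h.2
        omega
    · rintro rfl
      exact mem_N _ _
  rwa [h2] at h1

/-- the space is a Dowker space -/
theorem dowker (hL : Ladder g F) (hG : Guess F) :
    @NormalSpace _ (topo g F) ∧ ¬ @CountablyParacompact _ (topo g F) := by
  let _ := topo g F
  have := regular hL
  have hI : ∀ A : Set (Om × ℕ), A.Countable → ∃ I, IsClopen I ∧ I.Countable ∧ A ⊆ I := by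
    intro A hA
    rcases A.eq_empty_or_nonempty with rfl | hne
    · exact ⟨∅, isClopen_empty, countable_empty, subset_rfl⟩
    obtain ⟨f, hf⟩ := (hA.image Prod.fst).exists_eq_range (hne.image _)
    obtain ⟨d, hd⟩ := om_bound f
    refine ⟨{x | x.1 ≤ d}, clopen_initial hL d, countable_initial d, fun a ha => ?_⟩
    have h1 : a.1 ∈ Set.range f := by
      rw [← hf]
      exact ⟨a, ha, rfl⟩
    obtain ⟨n, hn⟩ := h1
    show a.1 ≤ d
    rw [← hn]
    exact (hd n).le
  obtain ⟨h1, D, hD1, hD2, hD3, hD4⟩ := finish (fun x : Om × ℕ => x.2) (level_open hL) hI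
    not_countable_univ fun A C hA hC hAu hCu n => key hL hG A C hA hC hAu hCu n
  exact ⟨h1, not_cp D hD1 hD2 hD3 hD4⟩

end Pool.Agent.N482.RD
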