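import Pool.Agent.Helper996.DowkerTop
import Pool.Agent.Helper732.HN.O

set_option autoImplicit false

/-!
# A first countable, locally countable Dowker space from a ladder system of finite sets
-/

namespace Pool.Agent.N482.RD

open Set Topology Cardinal
open Pool.Agent.Helper732.HN (Om om_countable om_bound om_gt)

/-- A ladder system of finite sets: for every countable ordinal `α` a nondecreasing sequence of cut
points `g α j` and finite sets `F α j ⊆ α` between `g α j` and `g α (j + 1)`, such that the cut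
points of the nonempty sets converge to `α`. -/
structure Ladder (g : Om → ℕ → Om) (F : Om → ℕ → Finset Om) : Prop where
  mem : ∀ α j, ∀ β ∈ F α j, g α j < β ∧ β ≤ g α (j + 1) ∧ β < α
  mono : ∀ α, Monotone (g α)
  lim : ∀ α γ, γ < α → ∃ k, ∀ j, k ≤ j → (F α j).Nonempty → γ < g α j

/-- the basic neighbourhoods -/
inductive Mem (g : Om → ℕ → Om) (F : Om → ℕ → Finset Om) : Om → ℕ → ℕ → Om × ℕ → Prop
  | self (α : Om) (n k : ℕ) : Mem g F α n k (α, n)
  | step (α : Om) (n k j : ℕ) (β : Om) (m : ℕ) (x : Om × ℕ) (hk : k ≤ j)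
      (ha : (Nat.unpair j).1 = n) (h1 : g α j < x.1) (h2 : x.1 ≤ g α (j + 1)) (hβ : β ∈ F α j)
      (hm : m < n) (hx : Mem g F β m 0 x) : Mem g F α n k x

variable {g : Om → ℕ → Om} {F : Om → ℕ → Finset Om}

theorem Mem.inv {α : Om} {n k : ℕ} {x : Om × ℕ} (h : Mem g F α n k x) :
    x = (α, n) ∨ ∃ j β m, k ≤ j ∧ (Nat.unpair j).1 = n ∧ g α j < x.1 ∧ x.1 ≤ g α (j + 1) ∧
      β ∈ F α j ∧ m < n ∧ Mem g F β m 0 x := by
  cases h with
  | self => exact Or.inl rfl
  | step => exact Or.inr ⟨_, _, _, ‹_›, ‹_›, ‹_›, ‹_›, ‹_›, ‹_›, ‹_›⟩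

theorem Mem.le (hL : Ladder g F) {α : Om} {n k : ℕ} {x : Om × ℕ} (h : Mem g F α n k x) :
    x = (α, n) ∨ (x.1 < α ∧ x.2 < n) := by
  induction h with
  | self α n k => exact Or.inl rfl
  | step α n k j β m x hk ha h1 h2 hβ hm hx ih =>
    right
    have hβα := (hL.mem α j β hβ).2.2
    rcases ih with rfl | ⟨h3, h4⟩
    · exact ⟨hβα, hm⟩
    · exact ⟨h3.trans hβα, h4.trans hm⟩

theorem Mem.le1 (hL : Ladder g F) {α : Om} {n k : ℕ} {x : Om × ℕ} (h : Mem g F α n k x) :
    x.1 ≤ α := by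
  rcases h.le hL with rfl | h
  · exact le_rfl
  · exact h.1.le

theorem Mem.anti {α : Om} {n k k' : ℕ} (hk : k ≤ k') {x : Om × ℕ} (h : Mem g F α n k' x) :
    Mem g F α n k x := by
  rcases h.inv with rfl | ⟨j, β, m, hk', ha, h1, h2, hβ, hm, hx⟩
  · exact Mem.self _ _ _
  · exact Mem.step _ _ _ j β m _ (hk.trans hk') ha h1 h2 hβ hm hx

theorem Mem.small (hL : Ladder g F) {α γ : Om} (hγ : γ < α) (n : ℕ) :
    ∃ k, ∀ x, Mem g F α n k x → γ < x.1 := by
  obtain ⟨k, hk⟩ := hL.lim α γ hγ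
  refine ⟨k, fun x hx => ?_⟩
  rcases hx.inv with rfl | ⟨j, β, m, hk', ha, h1, h2, hβ, hm, hx⟩
  · exact hγ
  · exact (hk j hk' ⟨β, hβ⟩).trans h1

theorem Mem.isOpen (hL : Ladder g F) {α : Om} {n k : ℕ} {z : Om × ℕ} (h : Mem g F α n k z) :
    ∃ l, ∀ x, Mem g F z.1 z.2 l x → Mem g F α n k x := by
  induction h with
  | self α n k => exact ⟨k, fun x hx => hx⟩
  | step α n k j β m z hk ha h1 h2 hβ hm hx ih =>
    obtain ⟨l1, hl1⟩ := ih
    obtain ⟨l2, hl2⟩ := Mem.small hL h1 z.2
    refine ⟨max l1 l2, fun x hx' => ?_⟩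
    have h3 := hl1 x (hx'.anti (le_max_left _ _))
    have h4 := hl2 x (hx'.anti (le_max_right _ _))
    exact Mem.step _ _ _ j β m _ hk ha h4 ((hx'.le1 hL).trans h2) hβ hm h3

theorem Mem.isClosed (hL : Ladder g F) (α : Om) : ∀ (n k : ℕ) (z : Om × ℕ), ¬ Mem g F α n k z →
    ∃ l, ∀ x, Mem g F z.1 z.2 l x → ¬ Mem g F α n k x := by
  induction α using WellFoundedLT.induction with
  | ind α ih =>
  intro n k z hz
  rcases lt_trichotomy z.1 α with hlt | heq | hgt
  · by_cases hj : ∃ j, z.1 ≤ g α j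
    · classical
      have hj0 := Nat.find_spec hj
      have hj1 : ∀ i < Nat.find hj, ¬ z.1 ≤ g α i := fun i hi => Nat.find_min hj hi
      rcases hjj : Nat.find hj with _ | j
      · rw [hjj] at hj0
        refine ⟨0, fun x hx h => ?_⟩
        have hxz := hx.le1 hL
        rcases h.inv with rfl | ⟨j, β, m, hk', ha, h1, h2, hβ, hm, hx'⟩
        · exact absurd hlt (not_lt.2 hxz)
        · exact absurd (lt_of_le_of_lt (hL.mono α (Nat.zero_le j)) h1)
            (not_lt.2 (hxz.trans hj0))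
      · rw [hjj] at hj0 hj1
        have hgj : g α j < z.1 := not_le.1 (hj1 j (Nat.lt_succ_self j))
        obtain ⟨l2, hl2⟩ := Mem.small hL hgj z.2
        -- the only possible index is `j`
        have huniq : ∀ x, Mem g F z.1 z.2 l2 x → Mem g F α n k x →
            k ≤ j ∧ (Nat.unpair j).1 = n ∧ ∃ β ∈ F α j, ∃ m, m < n ∧ Mem g F β m 0 x := by
          intro x hx h
          have hxz := hx.le1 hL
          have hxg := hl2 x hx
          rcases h.inv with rfl | ⟨i, β, m, hk', ha, h1, h2, hβ, hm, hx'⟩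
          · exact absurd hlt (not_lt.2 hxz)
          · have hij : i = j := by
              rcases lt_trichotomy i j with h | h | h
              · exact absurd (lt_of_lt_of_le hxg (h2.trans (hL.mono α (Nat.succ_le_of_lt h))))
                  (lt_irrefl _)
              · exact h
              · exact absurd (lt_of_lt_of_le h1 (hxz.trans (hj0.trans (hL.mono α
                  (Nat.succ_le_of_lt h))))) (lt_irrefl _)
            subst hij
            exact ⟨hk', ha, β, hβ, m, hm, hx'⟩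
        by_cases hc : k ≤ j ∧ (Nat.unpair j).1 = n
        · have h5 : ∀ β ∈ F α j, ∀ m < n, ∃ l, ∀ x, Mem g F z.1 z.2 l x → ¬ Mem g F β m 0 x := by
            intro β hβ m hm
            refine ih β (hL.mem α j β hβ).2.2 m 0 z fun h => hz ?_
            exact Mem.step _ _ _ j β m _ hc.1 hc.2 hgj hj0 hβ hm h
          choose! f hf using h5
          refine ⟨max l2 ((F α j).sup fun β => (Finset.range n).sup fun m => f β m), ?_⟩
          intro x hx h
          obtain ⟨-, -, β, hβ, m, hm, hx'⟩ := huniq x (hx.anti (le_max_left _ _)) h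
          refine hf β hβ m hm x (hx.anti ?_) hx'
          refine le_trans ?_ (le_max_right _ _)
          refine le_trans ?_ (Finset.le_sup (f := fun β => (Finset.range n).sup fun m => f β m) hβ)
          exact Finset.le_sup (f := fun m => f β m) (Finset.mem_range.2 hm)
        · exact ⟨l2, fun x hx h => hc ⟨(huniq x hx h).1, (huniq x hx h).2.1⟩⟩
    · push Not at hj
      obtain ⟨k', hk'⟩ := hL.lim α z.1 hlt
      obtain ⟨l, hl⟩ := Mem.small hL (hj k') z.2
      refine ⟨l, fun x hx h => ?_⟩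
      have hxz := hx.le1 hL
      have hxg := hl x hx
      rcases h.inv with rfl | ⟨i, β, m, hki, ha, h1, h2, hβ, hm, hx'⟩
      · exact absurd hlt (not_lt.2 hxz)
      · rcases lt_or_ge i k' with h | h
        · exact absurd (lt_of_lt_of_le hxg (h2.trans (hL.mono α (Nat.succ_le_of_lt h))))
            (lt_irrefl _)
        · exact absurd (hk' i h ⟨β, hβ⟩) (not_lt.2 (hj i).le)
  · obtain ⟨z1, i⟩ := z
    simp only at heq
    subst heq
    have hin : i ≠ n := by
      rintro rfl
      exact hz (Mem.self _ _ _)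
    refine ⟨0, fun x hx h => ?_⟩
    rcases hx.le hL with rfl | hx1
    · rcases h.le hL with h | h
      · exact hin (Prod.mk.inj h).2
      · exact lt_irrefl _ h.1
    · rcases hx.inv with rfl | ⟨j, β, m, hk', ha, h1, h2, hβ, hm, hx'⟩
      · exact lt_irrefl _ hx1.1
      · rcases h.inv with rfl | ⟨j', β', m', hk'', ha', h1', h2', hβ', hm', hx''⟩
        · exact lt_irrefl _ hx1.1
        · rcases lt_trichotomy j j' with h | h | h
          · exact absurd (lt_of_lt_of_le h1' (h2.trans (hL.mono _ (Nat.succ_le_of_lt h))))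
              (lt_irrefl _)
          · subst h
            exact hin (ha.symm.trans ha')
          · exact absurd (lt_of_lt_of_le h1 (h2'.trans (hL.mono _ (Nat.succ_le_of_lt h))))
              (lt_irrefl _)
  · obtain ⟨l, hl⟩ := Mem.small hL hgt z.2
    exact ⟨l, fun x hx h => absurd (hl x hx) (not_lt.2 (h.le1 hL))⟩

/-- the topology -/
@[instance_reducible] def topo (g : Om → ℕ → Om) (F : Om → ℕ → Finset Om) : TopologicalSpace (Om × ℕ) where
  IsOpen U := ∀ z ∈ U, ∃ l, ∀ x, Mem g F z.1 z.2 l x → x ∈ U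
  isOpen_univ := fun _ _ => ⟨0, fun _ _ => trivial⟩
  isOpen_inter := by
    rintro U V hU hV z ⟨h1, h2⟩
    obtain ⟨l1, hl1⟩ := hU z h1
    obtain ⟨l2, hl2⟩ := hV z h2
    exact ⟨max l1 l2, fun x hx => ⟨hl1 x (hx.anti (le_max_left _ _)),
      hl2 x (hx.anti (le_max_right _ _))⟩⟩
  isOpen_sUnion := by
    rintro S hS z ⟨U, hU, hz⟩
    obtain ⟨l, hl⟩ := hS U hU z hz
    exact ⟨l, fun x hx => ⟨U, hU, hl x hx⟩⟩

end Pool.Agent.N482.RD
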